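import Pool.Agent.H13.MA.MStmts

/-! Project MA, module DST: the supremum pseudometric -/

set_option linter.unusedVariables false
set_option synthInstance.maxSize 100000

namespace SW

section
variable {M : Type} [SetStr M] [ZF M]

/-- an element of the field from an element of the set of numbers -/
def dstL (S : RNum M) {a : M} (h : E a S.R) : S.T := ⟨a, h⟩

/-- `c` is zero or between `0` and `min (2 ^ (-k)) |f x - f y|` for some `(k, f)` in `K` -/
def DSTc (S : RNum M) (K x y c : M) : Prop :=
  E c S.R ∧ S.le S.z c ∧ (c = S.z ∨ ∃ k f : M, E (opair k f) K ∧ S.le c (S.hh k) ∧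
    (S.le (S.add c (app f y)) (app f x) ∨ S.le (S.add c (app f x)) (app f y)))

theorem DSTc_df (S : RNum M) :
    Df (fun v : Fin 4 → M => DSTc S (v 0) (v 1) (v 2) (v 3)) := by
  unfold DSTc; infer_instance

instance (S : RNum M) {n : ℕ} {t s u x : (Fin n → M) → M} [ht : DfT t] [hs : DfT s]
    [hu : DfT u] [hx : DfT x] : Df (fun v => DSTc S (t v) (s v) (u v) (x v)) :=
  (DSTc_df S).comp4 (R := fun a b c d => DSTc S a b c d) ht hs hu hx

/-- the distance -/
noncomputable def DSTd (S : RNum M) (K x y : M) : M :=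
  the (fun c => S.IsSup (sep S.R (fun c => DSTc S K x y c)) c)

theorem DSTd_df (S : RNum M) : DfT (fun v : Fin 3 → M => DSTd S (v 0) (v 1) (v 2)) := by
  unfold DSTd; infer_instance

instance (S : RNum M) {n : ℕ} {t s u : (Fin n → M) → M} [ht : DfT t] [hs : DfT s]
    [hu : DfT u] : DfT (fun v => DSTd S (t v) (s v) (u v)) :=
  (DSTd_df S).comp3 (f := fun a b c => DSTd S a b c) ht hs hu

theorem dst_symm (S : RNum M) (K x y : M) : DSTd S K x y = DSTd S K y x := by
  have h : ∀ c, DSTc S K x y c ↔ DSTc S K y x c := by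
    intro c
    unfold DSTc
    refine and_congr_right fun _ => and_congr_right fun _ => or_congr_right ?_
    refine exists_congr fun k => exists_congr fun f => and_congr_right fun _ =>
      and_congr_right fun _ => ?_
    exact Or.comm
  have e : sep S.R (fun c => DSTc S K x y c) = sep S.R (fun c => DSTc S K y x c) := by
    apply ext
    intro z
    rw [mem_sep' inferInstance, mem_sep' inferInstance, h]
  unfold DSTd
  rw [e]

end

/-- everything about the distance at two points -/
theorem dst_spec {M : Type} [SetStr M] [ZF M] {S : RNum M} (hH : HFacts S) {X K : M}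
    (hK : ∀ p, E p K → ∃ k f, E k om ∧ p = opair k f ∧
      ∀ x, E x X → E (app f x) S.R ∧ S.le S.z (app f x) ∧ S.le (app f x) S.u)
    {x y : M} (hx : E x X) (hy : E y X) :
    E (DSTd S K x y) S.R ∧ (∀ c, DSTc S K x y c → S.le c (DSTd S K x y)) ∧
      ∀ b, E b S.R → (∀ c, DSTc S K x y c → S.le c b) → S.le (DSTd S K x y) b := by
  have hz0 : DSTc S K x y S.z :=
    ⟨S.ax.zero_mem, (le_refl (0 : S.T) : (0 : S.T) ≤ 0), Or.inl rfl⟩
  have hsup : ∃ c, S.IsSup (sep S.R (fun c => DSTc S K x y c)) c := by
    refine hH.sup (b := S.u) ?_ ⟨S.z, (mem_sep' inferInstance).2 ⟨S.ax.zero_mem, hz0⟩⟩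
      S.ax.one_mem ?_
    · intro z hz
      rw [mem_sep' inferInstance] at hz
      exact hz.1
    · intro a ha
      rw [mem_sep' inferInstance] at ha
      obtain ⟨haR, -, -, h | ⟨k, f, hkf, h1, -⟩⟩ := ha
      · rw [h]
        exact (zero_le_one : (0 : S.T) ≤ 1)
      · obtain ⟨k', f', hk, e, -⟩ := hK _ hkf
        rw [opair_inj] at e
        obtain ⟨rfl, rfl⟩ := e
        have h2 : S.le (S.hh k) (S.hh emp) := hH.anti emp_mem_om hk
          (fun z hz => absurd hz (not_mem_emp z))
        rw [hH.zero] at h2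
        exact (le_trans (a := (dstL S haR)) (b := (dstL S (hH.mem hk)))
          (c := (1 : S.T)) h1 h2)
  obtain ⟨c, hc⟩ := hsup
  have huniq : ∀ z, S.IsSup (sep S.R (fun c => DSTc S K x y c)) z → z = c := by
    intro z hz
    have h1 := hz.2.2 c hc.1 hc.2.1
    have h2 := hc.2.2 z hz.1 hz.2.1
    exact congrArg Subtype.val (le_antisymm (a := (dstL S hz.1)) (b := dstL S hc.1) h1 h2)
  have h1 : S.IsSup (sep S.R (fun c => DSTc S K x y c)) (DSTd S K x y) :=
    the_spec (p := fun c => S.IsSup (sep S.R (fun c => DSTc S K x y c)) c) ⟨c, hc, huniq⟩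
  refine ⟨h1.1, ?_, ?_⟩
  · intro a ha
    exact h1.2.1 a ((mem_sep' inferInstance).2 ⟨ha.1, ha⟩)
  · intro b hb hb'
    refine h1.2.2 b hb ?_
    intro a ha
    rw [mem_sep' inferInstance] at ha
    exact hb' a ha.2

theorem ma_dst (harc : ARCStmt) : DSTStmt := by
  intro M _ _ S X K hK hKf
  have hH : HFacts S := harc M S
  have hKk : ∀ k f, E (opair k f) K → E k om ∧
      ∀ x, E x X → E (app f x) S.R ∧ S.le S.z (app f x) ∧ S.le (app f x) S.u := by
    intro k f h
    obtain ⟨k', f', hk, e, h'⟩ := hK _ h
    rw [opair_inj] at e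
    obtain ⟨rfl, rfl⟩ := e
    exact ⟨hk, h'⟩
  have hD : Fn1 (fun p : M => the (fun c => ∃ x y : M, p = opair x y ∧ c = DSTd S K x y)) :=
    inferInstance
  have happ : ∀ x y, E x X → E y X →
      app (gr (prod X X) (fun p : M => the (fun c => ∃ x y : M, p = opair x y ∧
        c = DSTd S K x y))) (opair x y) = DSTd S K x y := by
    intro x y hx hy
    rw [app_gr hD (mem_prod.2 ⟨hx, hy⟩)]
    refine the_eq ⟨x, y, rfl, rfl⟩ ?_
    rintro z ⟨x', y', e, rfl⟩
    rw [opair_inj] at e
    rw [e.1, e.2]
  refine ⟨gr (prod X X) (fun p : M => the (fun c => ∃ x y : M, p = opair x y ∧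
    c = DSTd S K x y)), ?_, ?_, ?_, ?_, ?_, ?_⟩
  · intro x y hx hy
    rw [happ x y hx hy]
    obtain ⟨h1, h2, h3⟩ := dst_spec hH hK hx hy
    exact ⟨h1, h2 S.z ⟨S.ax.zero_mem, (le_refl (0 : S.T) : (0 : S.T) ≤ 0), Or.inl rfl⟩⟩
  · intro x hx
    rw [happ x x hx hx]
    obtain ⟨h1, h2, h3⟩ := dst_spec hH hK hx hx
    have a1 : S.le S.z (DSTd S K x x) :=
      h2 S.z ⟨S.ax.zero_mem, (le_refl (0 : S.T) : (0 : S.T) ≤ 0), Or.inl rfl⟩
    have a2 : S.le (DSTd S K x x) S.z := by
      refine h3 _ S.ax.zero_mem ?_
      rintro c ⟨hc, hc0, h | ⟨k, f, hkf, h4, h5⟩⟩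
      · rw [h]
        exact (le_refl (0 : S.T) : (0 : S.T) ≤ 0)
      · obtain ⟨hk, hf⟩ := hKk k f hkf
        have hfx := (hf x hx).1
        have h6 : (dstL S hc) + (dstL S hfx) ≤ (dstL S hfx) := by
          rcases h5 with h5 | h5 <;> exact h5
        have h7 : (dstL S hc) ≤ 0 := by linarith
        exact h7
    exact congrArg Subtype.val (le_antisymm (a := (dstL S h1)) (b := 0) a2 a1)
  · intro x y hx hy
    rw [happ x y hx hy, happ y x hy hx]
    exact dst_symm S K x y
  · intro x y v hx hy hv
    rw [happ x v hx hv, happ x y hx hy, happ y v hy hv]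
    obtain ⟨-, -, h3⟩ := dst_spec hH hK hx hv
    obtain ⟨g1, g2, -⟩ := dst_spec hH hK hx hy
    obtain ⟨l1, l2, -⟩ := dst_spec hH hK hy hv
    refine h3 _ (S.add_mem g1 l1) ?_
    have z0 : ∀ a b, DSTc S K a b S.z := fun a b =>
      ⟨S.ax.zero_mem, (le_refl (0 : S.T) : (0 : S.T) ≤ 0), Or.inl rfl⟩
    rintro c ⟨hc, hc0, h | ⟨k, f, hkf, h4, h5⟩⟩
    · have e1 : (0 : S.T) ≤ (dstL S g1) := g2 _ (z0 x y)
      have e2 : (0 : S.T) ≤ (dstL S l1) := l2 _ (z0 y v)
      rw [h]
      have e3 : (0 : S.T) ≤ (dstL S g1) + (dstL S l1) := by linarith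
      exact e3
    · obtain ⟨hk, hf⟩ := hKk k f hkf
      have hfx := (hf x hx).1
      have hfy := (hf y hy).1
      have hfv := (hf v hv).1
      have hhk := hH.mem hk
      -- lift to the field
      have key : ∀ a b : S.T, 0 ≤ a → a ≤ (dstL S hc) →
          (a = 0 ∨ a + (dstL S hfy) ≤ (dstL S hfx) ∨ a + (dstL S hfx) ≤ (dstL S hfy)) →
          0 ≤ b → b ≤ (dstL S hc) →
          (b = 0 ∨ b + (dstL S hfv) ≤ (dstL S hfy) ∨ b + (dstL S hfy) ≤ (dstL S hfv)) →
          (dstL S hc) ≤ a + b → S.le c (S.add (DSTd S K x y) (DSTd S K y v)) := by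
        intro a b ha0 hac ha hb0 hbc hb hab
        have hck : (dstL S hc) ≤ (dstL S hhk) := h4
        have ea : a ≤ (dstL S g1) := by
          refine g2 a.1 ⟨a.2, ha0, ?_⟩
          rcases ha with ha | ha
          · exact Or.inl (congrArg Subtype.val ha)
          · exact Or.inr ⟨k, f, hkf, (hac.trans hck : a ≤ (dstL S hhk)), ha⟩
        have eb : b ≤ (dstL S l1) := by
          refine l2 b.1 ⟨b.2, hb0, ?_⟩
          rcases hb with hb | hb
          · exact Or.inl (congrArg Subtype.val hb)
          · exact Or.inr ⟨k, f, hkf, (hbc.trans hck : b ≤ (dstL S hhk)), hb⟩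
        have : (dstL S hc) ≤ (dstL S g1) + (dstL S l1) := by linarith
        exact this
      have hc0' : (0 : S.T) ≤ (dstL S hc) := hc0
      rcases h5 with h5 | h5
      · have h5' : (dstL S hc) + (dstL S hfv) ≤ (dstL S hfx) := h5
        generalize hC : (dstL S hc) = C at *
        generalize hFX : (dstL S hfx) = FX at *
        generalize hFY : (dstL S hfy) = FY at *
        generalize hFV : (dstL S hfv) = FV at *
        refine key (max 0 (min C (FX - FY))) (max 0 (min C (FY - FV))) (le_max_left _ _)
          (max_le hc0' (min_le_left _ _)) ?_ (le_max_left _ _)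
          (max_le hc0' (min_le_left _ _)) ?_ ?_
        · rcases le_total (min C (FX - FY)) 0 with h | h
          · exact Or.inl (max_eq_left h)
          · right; left
            rw [max_eq_right h]
            have := min_le_right C (FX - FY)
            linarith
        · rcases le_total (min C (FY - FV)) 0 with h | h
          · exact Or.inl (max_eq_left h)
          · right; left
            rw [max_eq_right h]
            have := min_le_right C (FY - FV)
            linarith
        · have a1 := le_max_left (0 : S.T) (min C (FX - FY))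
          have a2 := le_max_right (0 : S.T) (min C (FX - FY))
          have b1 := le_max_left (0 : S.T) (min C (FY - FV))
          have b2 := le_max_right (0 : S.T) (min C (FY - FV))
          rcases min_choice C (FX - FY) with h | h <;> rcases min_choice C (FY - FV) with h' | h' <;>
            rw [h] at a1 a2 ⊢ <;> rw [h'] at b1 b2 ⊢ <;> linarith
      · have h5' : (dstL S hc) + (dstL S hfx) ≤ (dstL S hfv) := h5
        generalize hC : (dstL S hc) = C at *
        generalize hFX : (dstL S hfx) = FX at *
        generalize hFY : (dstL S hfy) = FY at *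
        generalize hFV : (dstL S hfv) = FV at *
        refine key (max 0 (min C (FY - FX))) (max 0 (min C (FV - FY))) (le_max_left _ _)
          (max_le hc0' (min_le_left _ _)) ?_ (le_max_left _ _)
          (max_le hc0' (min_le_left _ _)) ?_ ?_
        · rcases le_total (min C (FY - FX)) 0 with h | h
          · exact Or.inl (max_eq_left h)
          · right; right
            rw [max_eq_right h]
            have := min_le_right C (FY - FX)
            linarith
        · rcases le_total (min C (FV - FY)) 0 with h | h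
          · exact Or.inl (max_eq_left h)
          · right; right
            rw [max_eq_right h]
            have := min_le_right C (FV - FY)
            linarith
        · have a1 := le_max_left (0 : S.T) (min C (FY - FX))
          have a2 := le_max_right (0 : S.T) (min C (FY - FX))
          have b1 := le_max_left (0 : S.T) (min C (FV - FY))
          have b2 := le_max_right (0 : S.T) (min C (FV - FY))
          rcases min_choice C (FY - FX) with h | h <;> rcases min_choice C (FV - FY) with h' | h' <;>
            rw [h] at a1 a2 ⊢ <;> rw [h'] at b1 b2 ⊢ <;> linarith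
  · intro n hn x y hx hy hnear
    rw [happ x y hx hy]
    obtain ⟨h1, h2, h3⟩ := dst_spec hH hK hx hy
    refine h3 _ (hH.mem hn) ?_
    have hpos : (0 : S.T) < (dstL S (hH.mem hn)) := S.coe_lt.2 (hH.pos hn)
    rintro c ⟨hc, hc0, h | ⟨k, f, hkf, h4, h5⟩⟩
    · rw [h]
      exact (hpos.le : (0 : S.T) ≤ (dstL S (hH.mem hn)))
    · obtain ⟨hk, hf⟩ := hKk k f hkf
      have hfx := (hf x hx).1
      have hfy := (hf y hy).1
      by_cases hkn : E k n
      · obtain ⟨n1, n2⟩ := hnear k f hkn hkf
        have n1' : (dstL S hfx) < (dstL S hfy) + (dstL S (hH.mem hn)) :=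
          S.coe_lt.2 n1
        have n2' : (dstL S hfy) < (dstL S hfx) + (dstL S (hH.mem hn)) :=
          S.coe_lt.2 n2
        have goal : (dstL S hc) ≤ (dstL S (hH.mem hn)) := by
          rcases h5 with h5 | h5
          · have h5' : (dstL S hc) + (dstL S hfy) ≤ (dstL S hfx) := h5
            linarith
          · have h5' : (dstL S hc) + (dstL S hfx) ≤ (dstL S hfy) := h5
            linarith
        exact goal
      · have hsub : Sub n k := ((Ord_nat hk).not_mem_iff (Ord_nat hn)).1 hkn
        have h6 : (dstL S (hH.mem hk)) ≤ (dstL S (hH.mem hn)) := hH.anti hn hk hsub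
        have h4' : (dstL S hc) ≤ (dstL S (hH.mem hk)) := h4
        have goal : (dstL S hc) ≤ (dstL S (hH.mem hn)) := h4'.trans h6
        exact goal
  · intro x y k f hx hy hkf hlt
    rw [happ x y hx hy] at hlt
    obtain ⟨h1, h2, h3⟩ := dst_spec hH hK hx hy
    obtain ⟨hk, hf⟩ := hKk k f hkf
    have hfx := (hf x hx).1
    have hfy := (hf y hy).1
    have hhk := hH.mem hk
    have hpos : (0 : S.T) < (dstL S hhk) := S.coe_lt.2 (hH.pos hk)
    have hlt' : (dstL S h1) < (dstL S hhk) := S.coe_lt.2 hlt
    have key : ¬ (S.le (S.add (S.hh k) (app f y)) (app f x) ∨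
        S.le (S.add (S.hh k) (app f x)) (app f y)) := by
      intro h
      have h4 : (dstL S hhk) ≤ (dstL S h1) := by
        refine h2 (S.hh k) ⟨hhk, hpos.le, Or.inr ⟨k, f, hkf, ?_, h⟩⟩
        exact (le_refl (dstL S hhk))
      exact absurd hlt' (not_lt.2 h4)
    rw [not_or] at key
    constructor
    · have k1 : ¬ ((dstL S hhk) + (dstL S hfy) ≤ (dstL S hfx)) := key.1
      have : (dstL S hfx) < (dstL S hfy) + (dstL S hhk) := by
        rw [not_le] at k1
        linarith
      exact S.coe_lt.1 this
    · have k1 : ¬ ((dstL S hhk) + (dstL S hfx) ≤ (dstL S hfy)) := key.2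
      have : (dstL S hfy) < (dstL S hfx) + (dstL S hhk) := by
        rw [not_le] at k1
        linarith
      exact S.coe_lt.1 this

end SW
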