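import Pool.Agent.H13.MA.MStmts

/-! Project MA, module NRM: regular spaces with a countable base are normal -/

set_option linter.unusedVariables false
set_option synthInstance.maxSize 100000

namespace SW

section
variable {M : Type} [SetStr M] [ZF M]

/-- the least number of `y` -/
noncomputable def nrmN (f y : M) : M :=
  the (fun n => E n om ∧ E (opair y n) f ∧ ∀ m : M, E m n → ¬ E (opair y m) f)

theorem nrmN_df : Fn2 (fun f y : M => nrmN f y) := by unfold nrmN; infer_instance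

instance {n : ℕ} {t s : (Fin n → M) → M} [ht : DfT t] [hs : DfT s] :
    DfT (fun v => nrmN (t v) (s v)) := nrmN_df.comp2 ht hs

theorem nrmN_spec {f y : M} (h : ∃ n, E n om ∧ E (opair y n) f) :
    E (nrmN f y) om ∧ E (opair y (nrmN f y)) f := by
  obtain ⟨n, hn, hnf⟩ := h
  obtain ⟨m, hm, hmC, hmin, -⟩ := ord_min (C := fun m : M => E m om ∧ E (opair y m) f)
    inferInstance (Ord_nat hn) ⟨hn, hnf⟩
  have h1 := the_spec (p := fun n => E n om ∧ E (opair y n) f ∧ ∀ m : M, E m n →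
      ¬ E (opair y m) f)
    ⟨m, ⟨hmC.1, hmC.2, fun k hk hkf => hmin k hk ⟨Trans_om _ hmC.1 k hk, hkf⟩⟩, by
      rintro m' ⟨h1, h2, h3⟩
      rcases (Ord_nat h1).tri hm with h | h | h
      · exact absurd ⟨h1, h2⟩ (hmin m' h)
      · exact h
      · exact absurd hmC.2 (h3 m h)⟩
  exact ⟨h1.1, h1.2.1⟩

/-- the sets in `F` are avoided by open neighbourhoods of `x`; so is their union -/
theorem nrm_fin {X T B : M} (hS : SpC X T B) {x : M} (hx : E x X) (F : M) (hF : Fnt F)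
    (h : ∀ W, E W F → ∃ O, E O T ∧ E x O ∧ ∀ z, E z O → ¬ E z W) :
    ∃ O, E O T ∧ E x O ∧ ∀ W, E W F → ∀ z, E z O → ¬ E z W := by
  have key := finF.ind (fun F : M => (∀ W : M, E W F → ∃ O : M, E O T ∧ E x O ∧
      ∀ z : M, E z O → ¬ E z W) →
    ∃ O : M, E O T ∧ E x O ∧ ∀ W : M, E W F → ∀ z : M, E z O → ¬ E z W) inferInstance ?_ ?_ F hF h
  · exact key
  · intro _
    exact ⟨X, hS.top, hx, fun W hW => absurd hW (not_mem_emp W)⟩
  · intro y a _ _ ih h'
    obtain ⟨O1, h1, h2, h3⟩ := ih fun W hW => h' W (mem_ins.2 (Or.inl hW))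
    obtain ⟨O2, g1, g2, g3⟩ := h' a (mem_ins.2 (Or.inr rfl))
    refine ⟨inter O1 O2, hS.int h1 g1, mem_inter.2 ⟨h2, g2⟩, ?_⟩
    intro W hW z hz
    rw [mem_inter] at hz
    rcases mem_ins.1 hW with hW | rfl
    · exact h3 W hW z hz.1
    · exact g3 z hz.2

/-- finitely many members of `B` have a number in `n` -/
theorem nrm_num {B f n : M} (hf1 : ∀ y, E y B → ∃ n, E n om ∧ E (opair y n) f)
    (hf2 : ∀ y y' n, E y B → E y' B → E n om → E (opair y n) f → E (opair y' n) f → y = y')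
    (hn : E n om) : Fnt (sep B (fun y => E (nrmN f y) n)) := by
  have h1 : Fn1 (fun k : M => the (fun y => E y B ∧ nrmN f y = k)) := inferInstance
  refine finF.sub (finF.img (fun k : M => the (fun y => E y B ∧ nrmN f y = k)) h1
    (finF.nat hn)) ?_
  intro y hy
  rw [mem_sep' inferInstance] at hy
  rw [mem_img' h1]
  refine ⟨nrmN f y, hy.2, ?_⟩
  refine (the_eq (p := fun z => E z B ∧ nrmN f z = nrmN f y) ⟨hy.1, rfl⟩ ?_).symm
  rintro z ⟨hz1, hz2⟩
  have s1 := nrmN_spec (hf1 y hy.1)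
  have s2 := nrmN_spec (hf1 z hz1)
  rw [hz2] at s2
  exact hf2 z y _ hz1 hy.1 s1.1 s2.2 s1.2

end

theorem ma_nrm : NRMStmt := by
  intro M _ _ X T B hS A U hAX hU hAU
  obtain ⟨f, hf1, hf2⟩ := hS.cB
  have hnum : ∀ y, E y B → E (nrmN f y) om := fun y hy => (nrmN_spec (hf1 y hy)).1
  -- the two families
  let Q : M → Prop := fun W => E W B ∧ ∀ y, E y X → Clo T W y → ¬ Clo T A y
  have hQ : Cl (fun W : M => E W B ∧ ∀ y : M, E y X → Clo T W y → ¬ Clo T A y) := inferInstance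
  let V := sUn (sep T (fun O => ∃ V' : M, E V' B ∧ CIn X T V' U ∧ Sub O V' ∧
    ∀ W : M, E W B → (∀ y : M, E y X → Clo T W y → ¬ Clo T A y) →
      E (nrmN f W) (suc (nrmN f V')) → ∀ z : M, E z O → ¬ E z W))
  have hVmem : ∀ x, E x V ↔ ∃ O, (E O T ∧ ∃ V', E V' B ∧ CIn X T V' U ∧ Sub O V' ∧
    ∀ W, E W B → (∀ y, E y X → Clo T W y → ¬ Clo T A y) →
      E (nrmN f W) (suc (nrmN f V')) → ∀ z, E z O → ¬ E z W) ∧ E x O := by
    intro x
    show E x (sUn (sep T _)) ↔ _
    rw [mem_sUn]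
    constructor
    · rintro ⟨O, hO, hx⟩
      rw [mem_sep' inferInstance] at hO
      exact ⟨O, hO, hx⟩
    · rintro ⟨O, hO, hx⟩
      exact ⟨O, (mem_sep' inferInstance).2 hO, hx⟩
  have hVT : E V T := by
    refine hS.uni ?_
    intro z hz
    rw [mem_sep' inferInstance] at hz
    exact hz.1
  refine ⟨V, hVT, ?_, ?_⟩
  · -- the closure of `A` is contained in `V`
    intro y hy hyA
    obtain ⟨V0, hV0, hyV0, hV0U⟩ := hS.reg hU (hAU y hy hyA)
    obtain ⟨V', hV'B, hyV', hV'V0⟩ := hS.bas hV0 hyV0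
    have hP : CIn X T V' U := by
      intro z hz hcl
      refine hV0U z hz ?_
      intro O hO hzO
      obtain ⟨t, ht1, ht2⟩ := hcl O hO hzO
      exact ⟨t, ht1, hV'V0 t ht2⟩
    have hfin : Fnt (sep (sep B (fun W => E (nrmN f W) (suc (nrmN f V'))))
        (fun W => ∀ y : M, E y X → Clo T W y → ¬ Clo T A y)) := by
      refine finF.sub (nrm_num hf1 hf2 (suc_mem_om (hnum V' hV'B))) ?_
      intro z hz
      rw [mem_sep' inferInstance] at hz
      exact hz.1
    obtain ⟨O, hO, hyO, hOW⟩ := nrm_fin hS hy _ hfin (by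
      intro W hW
      rw [mem_sep' inferInstance, mem_sep' inferInstance] at hW
      obtain ⟨⟨hW1, hW2⟩, hW3⟩ := hW
      have hno : ¬ Clo T W y := fun h => hW3 y hy h hyA
      unfold Clo at hno
      push Not at hno
      obtain ⟨O, hO, hyO, hO2⟩ := hno
      exact ⟨O, hO, hyO, fun z hz hzW => hO2 z hz hzW⟩)
    rw [hVmem]
    refine ⟨inter O V', ⟨hS.int hO (hS.bT _ hV'B), V', hV'B, hP, ?_, ?_⟩,
      mem_inter.2 ⟨hyO, hyV'⟩⟩
    · intro z hz
      exact (mem_inter.1 hz).2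
    · intro W hWB hWA hWn z hz
      refine hOW W ?_ z (mem_inter.1 hz).1
      rw [mem_sep' inferInstance, mem_sep' inferInstance]
      exact ⟨⟨hWB, hWn⟩, hWA⟩
  · -- the closure of `V` is contained in `U`
    intro y hy hyV
    by_contra hyU
    have hyA : ¬ Clo T A y := fun h => hyU (hAU y hy h)
    unfold Clo at hyA
    push Not at hyA
    obtain ⟨O0, hO0, hyO0, hO0A⟩ := hyA
    obtain ⟨W0, hW0, hyW0, hW0O⟩ := hS.reg hO0 hyO0
    obtain ⟨W, hWB, hyW, hWW0⟩ := hS.bas hW0 hyW0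
    have hWQ : ∀ z, E z X → Clo T W z → ¬ Clo T A z := by
      intro z hz hzW hzA
      have h1 : E z O0 := by
        refine hW0O z hz ?_
        intro O hO hzO
        obtain ⟨t, ht1, ht2⟩ := hzW O hO hzO
        exact ⟨t, ht1, hWW0 t ht2⟩
      obtain ⟨t, ht1, ht2⟩ := hzA O0 hO0 h1
      exact hO0A t ht1 ht2
    have hfin : Fnt (sep (sep B (fun V' => E (nrmN f V') (nrmN f W)))
        (fun V' => CIn X T V' U)) := by
      refine finF.sub (nrm_num hf1 hf2 (hnum W hWB)) ?_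
      intro z hz
      rw [mem_sep' inferInstance] at hz
      exact hz.1
    obtain ⟨O', hO', hyO', hO'V⟩ := nrm_fin hS hy _ hfin (by
      intro V' hV'
      rw [mem_sep' inferInstance] at hV'
      have hno : ¬ Clo T V' y := fun h => hyU (hV'.2 y hy h)
      unfold Clo at hno
      push Not at hno
      obtain ⟨O, hO, hyO, hO2⟩ := hno
      exact ⟨O, hO, hyO, fun z hz hzW => hO2 z hz hzW⟩)
    obtain ⟨z, hz1, hz2⟩ := hyV (inter O' W) (hS.int hO' (hS.bT _ hWB))
      (mem_inter.2 ⟨hyO', hyW⟩)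
    rw [mem_inter] at hz1
    rw [hVmem] at hz2
    obtain ⟨O, ⟨hO, V', hV'B, hV'U, hOV', hOW⟩, hzO⟩ := hz2
    by_cases hlt : E (nrmN f W) (suc (nrmN f V'))
    · exact hOW W hWB hWQ hlt z hzO hz1.2
    · refine hO'V V' ?_ z hz1.1 (hOV' z hzO)
      rw [mem_sep' inferInstance, mem_sep' inferInstance]
      refine ⟨⟨hV'B, ?_⟩, hV'U⟩
      rw [mem_suc] at hlt
      push Not at hlt
      rcases (Ord_nat (hnum W hWB)).tri (Ord_nat (hnum V' hV'B)) with h | h | h
      · exact absurd h hlt.1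
      · exact absurd h hlt.2
      · exact h

end SW
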