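import Pool.Agent.H13.MA.TStmts

/-! Project MA, module BCX: the base is countable -/

set_option linter.unusedVariables false
set_option synthInstance.maxSize 100000

namespace SW

/-- the condition on a local base -/
def BCXloc {M : Type} [SetStr M] [ZF M] (T p c : M) : Prop :=
  Cb c ∧ (∀ W, E W c → E p W) ∧ ∀ V, E V T → E p V → ∃ W, E W c ∧ Sub W V

theorem BCXloc_df {M : Type} [SetStr M] [ZF M] : Cl3 (fun T p c : M => BCXloc T p c) := by
  unfold BCXloc; infer_instance

instance {M : Type} [SetStr M] [ZF M] {n : ℕ} {t s u : (Fin n → M) → M} [ht : DfT t]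
    [hs : DfT s] [hu : DfT u] : Df (fun v => BCXloc (t v) (s v) (u v)) :=
  BCXloc_df.comp3 ht hs hu

/-- a member of `B` which is maximal outside `c` -/
def BCXmax {M : Type} [SetStr M] [ZF M] (B c b : M) : Prop :=
  ¬ E b c ∧ ∀ b', E b' B → ¬ E b' c → Sub b b' → b' = b

theorem BCXmax_df {M : Type} [SetStr M] [ZF M] : Cl3 (fun B c b : M => BCXmax B c b) := by
  unfold BCXmax; infer_instance

instance {M : Type} [SetStr M] [ZF M] {n : ℕ} {t s u : (Fin n → M) → M} [ht : DfT t]
    [hs : DfT s] [hu : DfT u] : Df (fun v => BCXmax (t v) (s v) (u v)) :=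
  BCXmax_df.comp3 ht hs hu

theorem ma_bcx (hhl : HLXStmt) (hhs : HSXStmt) (hfc : FCXStmt) (hcomb : COMBStmt)
    (hseq : SEQStmt) (hcb : CBTStmt) (hacf : ACFStmt) : BCXStmt := by
  intro M _ _ w X T B D hw hfree hS
  have hC : CbFacts M := hcb M
  by_contra hunc
  -- choose countable local bases
  obtain ⟨g, hg⟩ := hacf M (pow T)
  let L : M → M := fun p => app g (sep (pow T) (fun c => BCXloc T p c))
  have hLdf : Fn1 L := by
    show Fn1 (fun p => app g (sep (pow T) (fun c => BCXloc T p c)))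
    infer_instance
  have hL : ∀ p, E p X → Sub (L p) T ∧ BCXloc T p (L p) := by
    intro p hp
    obtain ⟨c, hcT, hcC, hc1, hc2⟩ := hfc M w X T B D hw hfree hS p hp
    have h1 : E (app g (sep (pow T) (fun c => BCXloc T p c)))
        (sep (pow T) (fun c => BCXloc T p c)) := by
      apply hg
      · intro z hz
        rw [mem_sep' inferInstance] at hz
        exact hz.1
      · refine ⟨c, ?_⟩
        rw [mem_sep' inferInstance, mem_pow]
        exact ⟨hcT, hcC, hc1, hc2⟩
    rw [mem_sep' inferInstance, mem_pow] at h1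
    exact h1
  -- the sequence
  obtain ⟨V, hV⟩ := hseq M w B (fun c b => BCXmax B c b) hw inferInstance (by
    intro c hc hcc
    have hne : ∃ A, E A (diff B c) := by
      by_contra hno
      apply hunc
      refine hC.sub hcc ?_
      intro z hz
      by_contra hzc
      exact hno ⟨z, mem_diff.2 ⟨hz, hzc⟩⟩
    obtain ⟨A, hA, hmax⟩ := hS.max (diff B c) (fun z hz => (mem_diff.1 hz).1) hne
    rw [mem_diff] at hA
    exact ⟨A, hA.1, hA.2, fun b' hb' hb'c hsub => hmax b' (mem_diff.2 ⟨hb', hb'c⟩) hsub⟩)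
  have hVdf : Fn1 (fun b : M => app V b) := inferInstance
  have hord : Ord w := hw.1
  have hDec : Dec w T V := by
    refine ⟨fun a ha => hS.bT _ (hV a ha).1, ?_⟩
    intro a b hb hab hsub
    have ha : E a w := hord.trans hb hab
    obtain ⟨hVb, hVb1, hVb2⟩ := hV b hb
    obtain ⟨hVa, hVa1, hVa2⟩ := hV a ha
    have h1 : app V b = app V a := by
      apply hVa2 _ hVb _ hsub
      intro hmem
      apply hVb1
      obtain ⟨c, hc, e⟩ := (mem_img' hVdf).1 hmem
      exact (mem_img' hVdf).2 ⟨c, (hord.mem hb).trans hab hc, e⟩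
    exact hVb1 ((mem_img' hVdf).2 ⟨a, hab, h1⟩)
  have hPB : PBp T := by
    intro u hu
    obtain ⟨Z, hZ1, hZ2, hZ3⟩ := hhs M w X T B D hw hfree hS (diff X (sUn u))
      (fun z hz => (mem_diff.1 hz).1)
    have hZX : ∀ e, E e Z → E e X ∧ ¬ E e (sUn u) := fun e he => mem_diff.1 (hZ1 e he)
    refine ⟨sUn (img Z L), ?_, ?_, ?_, ?_⟩
    · intro z hz
      rw [mem_sUn] at hz
      obtain ⟨y, hy, hzy⟩ := hz
      rw [mem_img' hLdf] at hy
      obtain ⟨e, he, rfl⟩ := hy
      exact (hL e (hZX e he).1).1 z hzy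
    · exact hC.iUn L hLdf hZ2 fun e he => (hL e (hZX e he).1).2.1
    · intro z hz hsub
      rw [mem_sUn] at hz
      obtain ⟨y, hy, hzy⟩ := hz
      rw [mem_img' hLdf] at hy
      obtain ⟨e, he, rfl⟩ := hy
      exact (hZX e he).2 (hsub e ((hL e (hZX e he).1).2.2.1 z hzy))
    · intro z hz hnsub
      have h1 : ∃ x, E x z ∧ ¬ E x (sUn u) := by
        by_contra hno
        push Not at hno
        exact hnsub fun x hx => hno x hx
      obtain ⟨x, hxz, hxu⟩ := h1
      obtain ⟨e, hez, heZ⟩ := hZ3 x (mem_diff.2 ⟨hS.sub hz x hxz, hxu⟩) z hz hxz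
      obtain ⟨W, hW, hWz⟩ := (hL e (hZX e heZ).1).2.2.2 z hz hez
      exact ⟨W, mem_sUn.2 ⟨L e, (mem_img' hLdf).2 ⟨e, heZ, rfl⟩, hW⟩, hWz⟩
  obtain ⟨A, hAw, hAunc, hA⟩ := hcomb M w T V hw hfree hDec (hhl M w X T B D hw hS) hPB
  apply hAunc
  have hinc : Cb (img A (fun b => app V b)) := by
    apply hS.inc
    · intro z hz
      obtain ⟨a, ha, rfl⟩ := (mem_img' hVdf).1 hz
      exact (hV a (hAw a ha)).1
    · intro U U' hU hU' hsub
      obtain ⟨a, ha, rfl⟩ := (mem_img' hVdf).1 hU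
      obtain ⟨b, hb, rfl⟩ := (mem_img' hVdf).1 hU'
      by_contra hne
      exact hA a b ha hb (fun e => hne (by rw [e])) hsub
  refine hC.inj (fun b => app V b) hVdf hinc ?_ ?_
  · intro z hz
    exact (mem_img' hVdf).2 ⟨z, hz, rfl⟩
  · intro z z' hz hz' e
    by_contra hne
    exact hA z z' hz hz' hne (fun t ht => by have e' : app V z = app V z' := e; rwa [← e'])

end SW
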